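import Pool.Agent.Lib.MP_1d29c3_nt.Main

/-!
# MP_1d29c3_nt, Q1: an admissible partition of the primes such that `N(P)` has the translation property
-/

open Filter Asymptotics

namespace Pool.Agent.Results.MP_1d29c3_nt.AdmissiblePartition

/-- for every positive integer `n` some `t ≥ 1` satisfies: `a ∈ A ↔ a + t ∈ A` for all `1 ≤ a ≤ n`. -/
def TranslationProperty (A : Set ℕ) : Prop :=
  ∀ n : ℕ, 1 ≤ n → ∃ t : ℕ, 1 ≤ t ∧ ∀ a : ℕ, 1 ≤ a → a ≤ n → (a ∈ A ↔ a + t ∈ A)

/-- the positive integers all of whose prime divisors belong to `P`. -/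
def builtFrom (P : Set ℕ) : Set ℕ := {m | 1 ≤ m ∧ ∀ p : ℕ, p.Prime → p ∣ m → p ∈ P}

/-- the number of elements of `P` that are at most the real number `x`. -/
noncomputable def count (P : Set ℕ) (x : ℝ) : ℕ := {p : ℕ | p ∈ P ∧ (p : ℝ) ≤ x}.ncard

/-- `P ⊔ Q` is a partition of the primes, and both parts have at least `c x / log x` elements up to `x`,
for all real `x ≥ x₀`. -/
def Admissible (P Q : Set ℕ) : Prop :=
  Disjoint P Q ∧ P ∪ Q = {p : ℕ | p.Prime} ∧
    ∃ c : ℝ, 0 < c ∧ ∃ x₀ : ℝ, ∀ x : ℝ, x₀ ≤ x →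
      c * (x / Real.log x) ≤ count P x ∧ c * (x / Real.log x) ≤ count Q x

theorem count_bound {P : Set ℕ}
    (h : (fun x : ℕ ↦ (x : ℝ) / Real.log x) =O[atTop] (fun x ↦ ((P ∩ Set.Iic x).ncard : ℝ))) :
    ∃ c : ℝ, 0 < c ∧ ∃ x₀ : ℝ, ∀ x : ℝ, x₀ ≤ x → c * (x / Real.log x) ≤ count P x := by
  obtain ⟨C, hC, hb⟩ := h.exists_pos
  rw [IsBigOWith, eventually_atTop] at hb
  obtain ⟨N, hN⟩ := hb
  refine ⟨1 / (2 * C), by positivity, max (N + 1) 3, ?_⟩
  intro x hx
  have hx3 : (3 : ℝ) ≤ x := (le_max_right _ _).trans hx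
  have hxN : (N : ℝ) + 1 ≤ x := (le_max_left _ _).trans hx
  have hx0 : 0 ≤ x := by linarith
  set n := ⌊x⌋₊ with hn
  have hnx : (n : ℝ) ≤ x := Nat.floor_le hx0
  have hxn : x < n + 1 := Nat.lt_floor_add_one x
  have hNn : N ≤ n := by
    have : (N : ℝ) < n + 1 - 1 + 1 := by linarith
    have h2 : (N : ℝ) < (n : ℝ) + 1 := by linarith
    exact_mod_cast Nat.lt_succ_iff.1 (by exact_mod_cast h2)
  have hn2 : (2 : ℝ) < n := by linarith
  have hlogn : 0 < Real.log n := Real.log_pos (by linarith)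
  have hlog : Real.log n ≤ Real.log x := Real.log_le_log (by linarith) hnx
  have h1 := hN n hNn
  rw [Real.norm_of_nonneg (by positivity), Real.norm_of_nonneg (by positivity)] at h1
  have hset : {p : ℕ | p ∈ P ∧ (p : ℝ) ≤ x} = P ∩ Set.Iic n := by
    ext p
    constructor
    · rintro ⟨h1, h2⟩
      exact ⟨h1, Nat.le_floor h2⟩
    · rintro ⟨h1, h2⟩
      exact ⟨h1, (Nat.le_floor_iff hx0).1 h2⟩
  have h2 : x / Real.log x ≤ 2 * ((n : ℝ) / Real.log n) := by
    rw [div_le_iff₀ (hlogn.trans_le hlog)]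
    have h3 : (2 * ((n : ℝ) / Real.log n)) * Real.log n ≤
        (2 * ((n : ℝ) / Real.log n)) * Real.log x := by
      gcongr
    have h4 : (2 * ((n : ℝ) / Real.log n)) * Real.log n = 2 * n := by
      field_simp
    linarith
  unfold count
  rw [hset, div_mul_eq_mul_div, one_mul, div_le_iff₀ (by positivity)]
  calc x / Real.log x ≤ 2 * ((n : ℝ) / Real.log n) := h2
    _ ≤ 2 * (C * ((P ∩ Set.Iic n).ncard : ℝ)) := by gcongr
    _ = _ := by ring

end Pool.Agent.Results.MP_1d29c3_nt.AdmissiblePartition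

open Pool.Agent.Results.MP_1d29c3_nt.AdmissiblePartition in
/-- There is an admissible partition `P ⊔ Q` of the primes such that `N(P)` has the translation property. -/
theorem Pool.Agent.Results.MP_1d29c3_nt.AdmissiblePartition.result :
    ∃ P Q : Set ℕ, Admissible P Q ∧ TranslationProperty (builtFrom P) := by
  obtain ⟨P, hP, h1, h2, h3⟩ := Pool.Agent.Lib.MP_1d29c3_nt.main
  obtain ⟨c1, hc1, x1, hx1⟩ := count_bound h1
  obtain ⟨c2, hc2, x2, hx2⟩ := count_bound h2
  refine ⟨P, {p : ℕ | p.Prime} \ P, ⟨Set.disjoint_sdiff_right, Set.union_sdiff_cancel hP,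
    min c1 c2, lt_min hc1 hc2, max (max x1 x2) 3, ?_⟩, ?_⟩
  · intro x hx
    have hx3 : (3 : ℝ) ≤ x := (le_max_right _ _).trans hx
    have hpos : 0 ≤ x / Real.log x := div_nonneg (by linarith) (Real.log_nonneg (by linarith))
    have hx' : max x1 x2 ≤ x := (le_max_left _ _).trans hx
    exact ⟨(mul_le_mul_of_nonneg_right (min_le_left _ _) hpos).trans
        (hx1 x ((le_max_left _ _).trans hx')),
      (mul_le_mul_of_nonneg_right (min_le_right _ _) hpos).trans
        (hx2 x ((le_max_right _ _).trans hx'))⟩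
  · intro n _
    obtain ⟨t, ht1, ht2⟩ := h3 n
    refine ⟨t, ht1, ?_⟩
    intro a ha1 ha2
    exact ht2 a ha1 ha2
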